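import Pool.Agent.Lib.MP_e4b521_co.Main

set_option autoImplicit false

namespace Pool.Agent.Results.MP_e4b521_co.AllOrders

variable {V : Type} [DecidableEq V]

/-- every edge of H has been given a direction in the position A -/
def Finished (H : SimpleGraph V) (A : Finset (V × V)) : Prop :=
  ∀ u v : V, H.Adj u v → (u, v) ∈ A ∨ (v, u) ∈ A

/-- Minimizer, moving first, can force a final orientation with a dominating set of at most k
vertices: P is a set of positions (sets of arcs) that contains the start, that Minimizer can stay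
in on her turns and Maximizer cannot leave on his -/
def CanForce (H : SimpleGraph V) (k : ℕ) : Prop :=
  ∃ P : Set (Finset (V × V)), (∅ : Finset (V × V)) ∈ P ∧ ∀ A ∈ P,
    (Finished H A → ∃ S : Finset V, S.card ≤ k ∧ ∀ v : V, v ∉ S → ∃ u ∈ S, (u, v) ∈ A) ∧
    (¬ Finished H A → Even A.card →
      ∃ u v : V, H.Adj u v ∧ (u, v) ∉ A ∧ (v, u) ∉ A ∧ insert (u, v) A ∈ P) ∧
    (¬ Finished H A → Odd A.card →
      ∀ u v : V, H.Adj u v → (u, v) ∉ A → (v, u) ∉ A → insert (u, v) A ∈ P)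

/-- the oriented game domination number -/
noncomputable def gammaOg (H : SimpleGraph V) : ℕ∞ := ⨅ (k : ℕ) (_ : CanForce H k), (k : ℕ∞)

theorem result (V : Type) [Fintype V] [DecidableEq V] (G : SimpleGraph V)
    (h : 2 ≤ Fintype.card V → ∀ v, ∃ w, G.Adj v w)
    (h' : 2 ≤ Fintype.card V → ∀ v, ∃ w, Gᶜ.Adj v w) :
    3 * (gammaOg G + gammaOg Gᶜ) ≤ 2 * (Fintype.card V : ℕ∞) + 9 := by
  obtain ⟨k₁, k₂, h1, h2, h3⟩ : ∃ k₁ k₂, Pool.Agent.OG.Win G k₁ ∧ Pool.Agent.OG.Win Gᶜ k₂ ∧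
      3 * (k₁ + k₂) ≤ 2 * Fintype.card V + 9 := by
    by_cases hn : 2 ≤ Fintype.card V
    · exact Pool.Agent.OG.main_deg (h hn) (h' hn)
    · exact ⟨_, _, Pool.Agent.OG.win_card G, Pool.Agent.OG.win_card Gᶜ, by omega⟩
  have e1 : gammaOg G ≤ k₁ := iInf₂_le k₁ h1
  have e2 : gammaOg Gᶜ ≤ k₂ := iInf₂_le k₂ h2
  calc 3 * (gammaOg G + gammaOg Gᶜ) ≤ 3 * ((k₁ : ℕ∞) + k₂) := by gcongr
    _ ≤ _ := by exact_mod_cast h3

end Pool.Agent.Results.MP_e4b521_co.AllOrders
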